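import Pool.Agent.L5helper98.ID.Defs

set_option autoImplicit false

open MeasureTheory ProbabilityTheory Filter Topology Set
open scoped ENNReal BoundedContinuousFunction

namespace Pool.Agent.L5helper9.ID

open Pool.Agent.L5helper98.ID

theorem UP2_holds (hPER : St_PER) : St_UP2 := by
  intro l c κ η hl hl0 _ hη hc hint
  have hI : 0 ≤ I κ := integral_nonneg fun x => (Real.exp_pos _).le
  have hpt : ∀ x y : ℝ, ee (fun t => l t + c * Real.cos t) x y ≤
      ee (fun t => c * Real.cos t) x y +
        ENNReal.ofReal (Real.exp κ) * ENNReal.ofReal (Real.exp (l (x - y)) - 1) := by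
    intro x y
    unfold ee
    have h1 : 0 ≤ Real.exp (l (x - y)) - 1 := by
      have := Real.add_one_le_exp (l (x - y)); linarith [hl0 (x - y)]
    rw [← ENNReal.ofReal_mul (Real.exp_pos _).le, ← ENNReal.ofReal_add (Real.exp_pos _).le
      (mul_nonneg (Real.exp_pos _).le h1)]
    refine ENNReal.ofReal_le_ofReal ?_
    simp only
    have h2 : c * Real.cos (x - y) ≤ κ := by
      calc c * Real.cos (x - y) ≤ |c * Real.cos (x - y)| := le_abs_self _
        _ = |c| * |Real.cos (x - y)| := abs_mul _ _
        _ ≤ |c| * 1 := mul_le_mul_of_nonneg_left (Real.abs_cos_le_one _) (abs_nonneg _)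
        _ ≤ κ := by linarith
    have h3 : Real.exp (c * Real.cos (x - y)) ≤ Real.exp κ := Real.exp_le_exp.2 h2
    rw [Real.exp_add]
    nlinarith [mul_le_mul_of_nonneg_right h3 h1]
  have hin : ∀ x : ℝ, ∫⁻ y in D, ee (fun t => l t + c * Real.cos t) x y ≤
      ENNReal.ofReal (I κ) + ENNReal.ofReal (Real.exp κ) * ENNReal.ofReal η := by
    intro x
    have hm : Measurable fun y : ℝ => ENNReal.ofReal (Real.exp (l (x - y)) - 1) := by fun_prop
    calc ∫⁻ y in D, ee (fun t => l t + c * Real.cos t) x y
        ≤ ∫⁻ y in D, (ee (fun t => c * Real.cos t) x y +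
          ENNReal.ofReal (Real.exp κ) * ENNReal.ofReal (Real.exp (l (x - y)) - 1)) :=
          lintegral_mono fun y => hpt x y
      _ = (∫⁻ y in D, ee (fun t => c * Real.cos t) x y) +
          ENNReal.ofReal (Real.exp κ) *
            ∫⁻ y in D, ENNReal.ofReal (Real.exp (l (x - y)) - 1) := by
          rw [lintegral_add_right _ (hm.const_mul _), lintegral_const_mul _ hm]
      _ ≤ ENNReal.ofReal (I κ) + ENNReal.ofReal (Real.exp κ) * ENNReal.ofReal η := by
          refine add_le_add (hPER c κ hc x) (mul_le_mul_right ?_ _)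
          calc ∫⁻ y in D, ENNReal.ofReal (Real.exp (l (x - y)) - 1)
              ≤ ∫⁻ y, ENNReal.ofReal (Real.exp (l (x - y)) - 1) := setLIntegral_le_lintegral _ _
            _ = ∫⁻ y, ENNReal.ofReal (Real.exp (l y) - 1) :=
                lintegral_sub_left_eq_self (fun y => ENNReal.ofReal (Real.exp (l y) - 1)) x
            _ ≤ ENNReal.ofReal η := hint
  calc ∫⁻ x in D, ∫⁻ y in D, ee (fun t => l t + c * Real.cos t) x y
      ≤ ∫⁻ _x in D, (ENNReal.ofReal (I κ) + ENNReal.ofReal (Real.exp κ) * ENNReal.ofReal η) :=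
        lintegral_mono fun x => hin x
    _ = (ENNReal.ofReal (I κ) + ENNReal.ofReal (Real.exp κ) * ENNReal.ofReal η) *
        ENNReal.ofReal (2 * Real.pi) := by
        rw [setLIntegral_const]
        congr 1
        unfold D
        rw [Real.volume_Ioo]
        congr 1
        ring
    _ = ENNReal.ofReal (2 * Real.pi * I κ + 2 * Real.pi * Real.exp κ * η) := by
        have hp := Real.pi_pos
        rw [← ENNReal.ofReal_mul (Real.exp_pos _).le, ← ENNReal.ofReal_add hI
          (mul_nonneg (Real.exp_pos _).le hη), ← ENNReal.ofReal_mul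
          (add_nonneg hI (mul_nonneg (Real.exp_pos _).le hη))]
        congr 1
        ring

end Pool.Agent.L5helper9.ID
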